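import Pool.Agent.Run7.h36.CE.Fun

/-!
The number of solutions of `φ = ± μ` on the arc `(0, π)`, for planes which are not perpendicular.
-/

set_option autoImplicit false

namespace Run7.h36.CE

open Real

/-- the bound for the number of stationary points on an arc -/
noncomputable def nb (x : ℝ) : ℕ := if 0 < x then 4 else if x < 0 then 6 else 3

theorem sin_ne {t : ℝ} (ht : t ∈ Set.Ioo 0 π) : sin t ≠ 0 := (sin_pos_of_mem_Ioo ht).ne'

theorem sq_id {e b t : ℝ} (hb : b ^ 2 = 1 - e ^ 2) :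
    (cos t - e) ^ 2 + (b * sin t) ^ 2 = rho e t ^ 2 := by
  have hcs : sin t ^ 2 = 1 - cos t ^ 2 := by rw [← sin_sq_add_cos_sq t]; ring
  unfold rho
  linear_combination sin t ^ 2 * hb + (1 - e ^ 2) * hcs

theorem St_sq_le {e b α β t : ℝ} (hb : b ^ 2 = 1 - e ^ 2) :
    St e b α β t ^ 2 ≤ (α ^ 2 + β ^ 2) * rho e t ^ 2 := by
  rw [← sq_id hb]
  unfold St
  nlinarith [sq_nonneg (α * (b * sin t) - β * (cos t - e))]

theorem Z_pos {e b α β t : ℝ} (he0 : 0 < e) (he1 : e < 1) (hb : b ^ 2 = 1 - e ^ 2)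
    (hK : α ^ 2 + β ^ 2 < 1) : 0 < Z e b α β t := by
  have h1 := St_sq_le (α := α) (β := β) (t := t) hb
  have h2 : 0 < rho e t ^ 2 := pow_pos (rho_pos he0 he1) 2
  unfold Z
  nlinarith

theorem encard_zero_of {X : Type*} {p : X → Prop} (h : ∀ t, ¬ p t) : {t | p t}.encard = 0 := by
  rw [Set.encard_eq_zero, Set.eq_empty_iff_forall_notMem]
  exact h

section
variable {e b α β : ℝ}

theorem level_le_one {f f' : ℝ → ℝ} {a b : ℝ} (hf : ∀ x ∈ Set.Ioo a b, HasDerivAt f (f' x) x)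
    (h : ∀ t ∈ Set.Ioo a b, f' t ≠ 0) (c : ℝ) :
    {x | x ∈ Set.Ioo a b ∧ f x = c}.encard ≤ 1 := by
  have h1 := level_le hf c
  have h2 : {x | x ∈ Set.Ioo a b ∧ f' x = 0}.encard = 0 :=
    encard_zero_of (fun t ht => h t ht.1 ht.2)
  rw [h2] at h1
  simpa using h1

theorem count_Om (hb0 : 0 < b) (he0 : 0 < e) (he1 : e < 1) (hne : α * β ≠ 0) :
    {t | t ∈ Set.Ioo 0 π ∧ Om e b α β t = 0}.encard ≤ 1 := by
  refine level_le_one (f := Om e b α β) (a := 0) (b := π)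
    (fun t ht => hd_Om (b := b) (α := α) (β := β) (e := e) (sin_ne ht)) ?_ 0
  intro t ht h0
  have h1 := rho_pos (t := t) he0 he1
  have h2 := sin_ne ht
  have h3 : 3 * b * α * β * rho e t ^ 2 / sin t ^ 4 ≠ 0 := by
    apply div_ne_zero _ (pow_ne_zero 4 h2)
    have : 3 * b * α * β * rho e t ^ 2 = 3 * b * (α * β) * rho e t ^ 2 := by ring
    rw [this]
    exact mul_ne_zero (mul_ne_zero (mul_ne_zero three_ne_zero hb0.ne') hne) (pow_ne_zero 2 h1.ne')
  exact h3 (neg_eq_zero.1 h0)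

theorem count_w_of (hb : b ^ 2 = 1 - e ^ 2) (he0 : 0 < e) (he1 : e < 1) {n : ℕ∞}
    (h : {t | t ∈ Set.Ioo 0 π ∧ Om e b α β t = 0}.encard ≤ n) :
    {t | t ∈ Set.Ioo 0 π ∧ w e b α β t = 0}.encard ≤ n + 1 := by
  refine (level_le (f := w e b α β) (a := 0) (b := π)
    (fun t ht => hd_w (α := α) (β := β) hb (sin_ne ht) (rho_pos he0 he1).ne') 0).trans ?_
  gcongr
  refine le_trans (Set.encard_le_encard ?_) h
  rintro t ⟨ht, h0⟩
  refine ⟨ht, ?_⟩
  have h1 := rho_pos (t := t) he0 he1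
  rcases div_eq_zero_iff.1 h0 with h2 | h2
  · exact (mul_eq_zero.1 h2).resolve_left (sin_ne ht)
  · exact absurd h2 (pow_ne_zero 2 h1.ne')

theorem count_jj_pos (hb : b ^ 2 = 1 - e ^ 2) (hb0 : 0 < b) (he0 : 0 < e) (he1 : e < 1)
    (hK : α ^ 2 + β ^ 2 < 1) (hpos : 0 < α * β) :
    {t | t ∈ Set.Ioo 0 π ∧ jj e b α β t = 0}.encard ≤ 1 := by
  refine level_le_one (f := jj e b α β) (a := 0) (b := π)
    (fun t ht => hd_jj (α := α) (β := β) hb (sin_ne ht) (rho_pos he0 he1).ne') ?_ 0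
  intro t ht h0
  have h1 := rho_pos (t := t) he0 he1
  have h2 := sin_pos_of_mem_Ioo ht
  have h3 := Z_pos (t := t) he0 he1 hb hK
  have h4 : 0 < 3 * b * α * β * rho e t ^ 2 * Z e b α β t / sin t ^ 4 := by
    have : 3 * b * α * β * rho e t ^ 2 * Z e b α β t / sin t ^ 4
      = 3 * b * (α * β) * rho e t ^ 2 * Z e b α β t / sin t ^ 4 := by ring
    rw [this]
    positivity
  have h5 : 0 ≤ 3 * e * sin t * rho e t ^ 2 * w e b α β t ^ 2 := by positivity
  linarith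

theorem count_jj_of (hb : b ^ 2 = 1 - e ^ 2) (he0 : 0 < e) (he1 : e < 1)
    (hK : α ^ 2 + β ^ 2 < 1) {n : ℕ∞}
    (h : {t | t ∈ Set.Ioo 0 π ∧ GG e b α β t = 0}.encard ≤ n) :
    {t | t ∈ Set.Ioo 0 π ∧ jj e b α β t = 0}.encard ≤ n + 1 := by
  have h1 : {t | t ∈ Set.Ioo 0 π ∧ jj e b α β t = 0} ⊆ {t | t ∈ Set.Ioo 0 π ∧ HH e b α β t = 0} := by
    rintro t ⟨ht, h0⟩
    refine ⟨ht, ?_⟩
    unfold HH
    rw [h0, zero_div]
  refine (Set.encard_le_encard h1).trans ?_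
  refine (level_le (f := HH e b α β) (a := 0) (b := π)
    (fun t ht => hd_HH (α := α) (β := β) hb (sin_ne ht) (rho_pos he0 he1).ne') 0).trans ?_
  gcongr
  refine le_trans (Set.encard_le_encard ?_) h
  rintro t ⟨ht, h0⟩
  refine ⟨ht, ?_⟩
  have h1 := rho_pos (t := t) he0 he1
  have h3 := Z_pos (t := t) he0 he1 hb hK
  rcases div_eq_zero_iff.1 (neg_eq_zero.1 h0) with h2 | h2
  · refine (mul_eq_zero.1 h2).resolve_left ?_
    exact mul_ne_zero (mul_ne_zero three_ne_zero (sin_ne ht)) h3.ne'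
  · exact absurd h2 (pow_ne_zero 4 h1.ne')

theorem eq_pi_div_two {t : ℝ} (ht : t ∈ Set.Ioo 0 π) (h : cos t = 0) : t = π / 2 := by
  have h1 : cos t = cos (π / 2) := by rw [h, cos_pi_div_two]
  refine injOn_cos ⟨ht.1.le, ht.2.le⟩ ⟨?_, ?_⟩ h1
  · positivity
  · linarith [pi_pos]

theorem count_GG_neg (hb0 : 0 < b) (he0 : 0 < e) (he1 : e < 1) (hne : α * β ≠ 0) :
    {t | t ∈ Set.Ioo 0 π ∧ GG e b α β t = 0}.encard ≤ 2 := by
  have h := level_le (f := GG e b α β) (a := 0) (b := π)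
    (fun t ht => hd_GG (b := b) (α := α) (β := β) (e := e) (sin_ne ht)) 0
  refine h.trans ?_
  have h6 : {t | t ∈ Set.Ioo 0 π ∧
      -(5 * b * α * β * cos t * rho e t ^ 3 / sin t ^ 6) = 0}.encard ≤ 1 := by
    have h7 : {t | t ∈ Set.Ioo 0 π ∧
      -(5 * b * α * β * cos t * rho e t ^ 3 / sin t ^ 6) = 0} ⊆ {π / 2} := by
      rintro t ⟨ht, h0⟩
      have h1 := rho_pos (t := t) he0 he1
      refine eq_pi_div_two ht ?_
      rcases div_eq_zero_iff.1 (neg_eq_zero.1 h0) with h2 | h2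
      · by_contra hc
        have : 5 * b * α * β * cos t * rho e t ^ 3 = 5 * b * (α * β) * cos t * rho e t ^ 3 := by
          ring
        rw [this] at h2
        exact mul_ne_zero (mul_ne_zero (mul_ne_zero (mul_ne_zero (by norm_num) hb0.ne') hne) hc)
          (pow_ne_zero 3 h1.ne') h2
      · exact absurd h2 (pow_ne_zero 6 (sin_ne ht))
    exact (Set.encard_le_encard h7).trans (by simp)
  calc _ ≤ (1 : ℕ∞) + 1 := by gcongr
    _ = 2 := by norm_num

/-- solutions of `φ = ± μ` on the arc -/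
theorem count_phi (hb : b ^ 2 = 1 - e ^ 2) (he0 : 0 < e) (he1 : e < 1)
    (hK : α ^ 2 + β ^ 2 < 1) {μ : ℝ} (hμ : 0 < μ) :
    {t | t ∈ Set.Ioo 0 π ∧ (phi e b α β t = μ ∨ phi e b α β t = -μ)}.encard ≤
      {t | t ∈ Set.Ioo 0 π ∧ w e b α β t = 0}.encard +
      {t | t ∈ Set.Ioo 0 π ∧ jj e b α β t = 0}.encard + 1 := by
  refine (level2_le (f := phi e b α β) (a := 0) (b := π)
    (fun t ht => hd_phi (α := α) (β := β) hb (sin_ne ht) (rho_pos he0 he1).ne'
      (Z_pos he0 he1 hb hK)) hμ).trans ?_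
  refine add_le_add (add_le_add (Set.encard_le_encard ?_) (Set.encard_le_encard ?_)) le_rfl
  · rintro t ⟨ht, h0⟩
    refine ⟨ht, ?_⟩
    rcases div_eq_zero_iff.1 h0 with h2 | h2
    · exact h2
    · exact absurd h2 (Real.sqrt_pos.2 (Z_pos he0 he1 hb hK)).ne'
  · rintro t ⟨ht, h0⟩
    refine ⟨ht, ?_⟩
    have h1 := rho_pos (t := t) he0 he1
    have h3 := Z_pos (t := t) he0 he1 hb hK
    rcases div_eq_zero_iff.1 h0 with h2 | h2
    · exact (mul_eq_zero.1 h2).resolve_left (sin_ne ht)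
    · exact absurd h2 (mul_ne_zero (mul_ne_zero (pow_ne_zero 2 h1.ne') h3.ne')
        (Real.sqrt_pos.2 h3).ne')

theorem arc_le (hb : b ^ 2 = 1 - e ^ 2) (hb0 : 0 < b) (he0 : 0 < e) (he1 : e < 1)
    (hK : α ^ 2 + β ^ 2 < 1) {μ : ℝ} (hμ : 0 < μ) :
    {t | t ∈ Set.Ioo 0 π ∧ (phi e b α β t = μ ∨ phi e b α β t = -μ)}.encard ≤ nb (α * β) := by
  refine (count_phi hb he0 he1 hK hμ).trans ?_
  unfold nb
  split_ifs with h1 h2
  · have h3 := count_w_of hb he0 he1 (count_Om hb0 he0 he1 h1.ne')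
    have h4 := count_jj_pos hb hb0 he0 he1 hK h1
    calc _ ≤ ((1 : ℕ∞) + 1) + 1 + 1 := by gcongr
      _ = ((4 : ℕ) : ℕ∞) := by norm_num
  · have h3 := count_w_of hb he0 he1 (count_Om hb0 he0 he1 h2.ne)
    have h4 := count_jj_of hb he0 he1 hK (count_GG_neg hb0 he0 he1 h2.ne)
    calc _ ≤ ((1 : ℕ∞) + 1) + (2 + 1) + 1 := by gcongr
      _ = ((6 : ℕ) : ℕ∞) := by norm_num
  · have h0 : α * β = 0 := le_antisymm (not_lt.1 h1) (not_lt.1 h2)
    have hOm : ∀ t, Om e b α β t = b ^ 2 * (β ^ 2 - α ^ 2) := by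
      intro t
      unfold Om
      rw [h0]
      ring
    have hGG : ∀ t, GG e b α β t = e * (b ^ 2 * (β ^ 2 - α ^ 2)) := by
      intro t
      unfold GG
      rw [hOm, mul_assoc b α β, h0]
      ring
    by_cases hz : β ^ 2 - α ^ 2 = 0
    · have hα : α = 0 := by
        rcases mul_eq_zero.1 h0 with h | h
        · exact h
        · rw [h] at hz
          have : α ^ 2 = 0 := by linarith
          exact pow_eq_zero_iff (two_ne_zero) |>.1 this
      have hβ : β = 0 := by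
        rw [hα] at hz
        have : β ^ 2 = 0 := by linarith
        exact pow_eq_zero_iff (two_ne_zero) |>.1 this
      have hw : ∀ t, w e b α β t = e := by
        intro t
        unfold w St
        rw [hα, hβ]
        ring
      rw [encard_zero_of (p := fun t => t ∈ Set.Ioo 0 π ∧ w e b α β t = 0),
        encard_zero_of (p := fun t => t ∈ Set.Ioo 0 π ∧ jj e b α β t = 0)]
      · norm_num
      · rintro t ⟨ht, h⟩
        unfold jj at h
        rw [hOm, hw, hz] at h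
        have h5 := rho_pos (t := t) he0 he1
        have : 0 < rho e t ^ 3 * e ^ 2 := by positivity
        linarith
      · rintro t ⟨ht, h⟩
        rw [hw] at h
        exact he0.ne' h
    · have hOmz : {t | t ∈ Set.Ioo 0 π ∧ Om e b α β t = 0}.encard ≤ 0 := by
        rw [encard_zero_of]
        rintro t ⟨ht, h⟩
        rw [hOm] at h
        exact mul_ne_zero (pow_ne_zero 2 hb0.ne') hz h
      have hGGz : {t | t ∈ Set.Ioo 0 π ∧ GG e b α β t = 0}.encard ≤ 0 := by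
        rw [encard_zero_of]
        rintro t ⟨ht, h⟩
        rw [hGG] at h
        exact mul_ne_zero he0.ne' (mul_ne_zero (pow_ne_zero 2 hb0.ne') hz) h
      have h3 := count_w_of hb he0 he1 hOmz
      have h4 := count_jj_of hb he0 he1 hK hGGz
      calc _ ≤ ((0 : ℕ∞) + 1) + (0 + 1) + 1 := by gcongr
        _ = ((3 : ℕ) : ℕ∞) := by norm_num

end

end Run7.h36.CE
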