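import Pool.Agent.Run7.h36.CE.Arc

/-!
Perpendicular planes: `α ^ 2 + β ^ 2 = 1`.
-/

set_option autoImplicit false

namespace Run7.h36.CE

open Real

/-- the coordinate along the line of nodes -/
noncomputable def LL (e b α β t : ℝ) : ℝ := β * (cos t - e) - α * b * sin t

noncomputable def Lp (b α β t : ℝ) : ℝ := -(β * sin t) - α * b * cos t

noncomputable def v1 (e b α β t : ℝ) : ℝ := (β + α * b * (cos t / sin t)) / rho e t

noncomputable def MM (e b α β t : ℝ) : ℝ := β * e + α * b * ((1 - e * cos t ^ 3) / sin t ^ 3)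

section
variable {e b α β t : ℝ}

theorem hd_m0 (hs : sin t ≠ 0) :
    HasDerivAt (fun t => β + α * b * (cos t / sin t)) (-(α * b / sin t ^ 2)) t := by
  have h1 := (((hasDerivAt_cos t).div (hasDerivAt_sin t) hs).const_mul (α * b)).const_add β
  have h2 : HasDerivAt (fun t => β + α * b * (cos t / sin t)) _ t := h1
  refine h2.congr_deriv ?_
  have hcs : sin t ^ 2 = 1 - cos t ^ 2 := by rw [← sin_sq_add_cos_sq t]; ring
  field_simp
  linear_combination (-(α * b)) * hcs

theorem hd_v1 (hs : sin t ≠ 0) (hr : rho e t ≠ 0) :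
    HasDerivAt (v1 e b α β) (-(sin t * MM e b α β t / rho e t ^ 2)) t := by
  have h1 := (hd_m0 (b := b) (α := α) (β := β) hs).div (hd_rho (e := e) (t := t)) hr
  have h2 : HasDerivAt (v1 e b α β) _ t := h1
  refine h2.congr_deriv ?_
  have hcs : sin t ^ 2 = 1 - cos t ^ 2 := by rw [← sin_sq_add_cos_sq t]; ring
  unfold MM
  have hr2 : rho e t = 1 - e * cos t := rfl
  field_simp
  rw [hr2]
  linear_combination (-(e * α * b * cos t)) * hcs

theorem hd_MM (hs : sin t ≠ 0) :
    HasDerivAt (MM e b α β) (-(3 * α * b * cos t * rho e t / sin t ^ 4)) t := by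
  have h0 := ((hasDerivAt_cos t).pow 3).const_mul e
  have h1 := (((h0.const_sub 1).div ((hasDerivAt_sin t).pow 3) (pow_ne_zero 3 hs)).const_mul
    (α * b)).const_add (β * e)
  have h2 : HasDerivAt (MM e b α β) _ t := h1
  refine h2.congr_deriv ?_
  have hcs : sin t ^ 2 = 1 - cos t ^ 2 := by rw [← sin_sq_add_cos_sq t]; ring
  have hr2 : rho e t = 1 - e * cos t := rfl
  rw [hr2]
  simp only [Pi.pow_apply]
  field_simp
  push_cast
  linear_combination (3 * α * b * e * cos t ^ 2 * sin t ^ 2) * hcs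

theorem hd_Lσ (hs : sin t ≠ 0) :
    HasDerivAt (fun t => β * ((cos t - e) / sin t) - α * b) (-(β * rho e t / sin t ^ 2)) t := by
  have h1 := ((((hasDerivAt_cos t).sub_const e).div (hasDerivAt_sin t) hs).const_mul β).sub_const
    (α * b)
  have h2 : HasDerivAt (fun t => β * ((cos t - e) / sin t) - α * b) _ t := h1
  refine h2.congr_deriv ?_
  have hcs : sin t ^ 2 = 1 - cos t ^ 2 := by rw [← sin_sq_add_cos_sq t]; ring
  have hr2 : rho e t = 1 - e * cos t := rfl
  rw [hr2]
  field_simp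
  linear_combination (-β) * hcs

end

section
variable {e b α β : ℝ}

theorem count_v1 (he0 : 0 < e) (he1 : e < 1) {μ : ℝ} (hμ : 0 < μ) :
    {t | t ∈ Set.Ioo 0 π ∧ (v1 e b α β t = μ ∨ v1 e b α β t = -μ)}.encard ≤
      {t | t ∈ Set.Ioo 0 π ∧ β + α * b * (cos t / sin t) = 0}.encard +
      {t | t ∈ Set.Ioo 0 π ∧ MM e b α β t = 0}.encard + 1 := by
  refine (level2_le (f := v1 e b α β) (a := 0) (b := π)
    (fun t ht => hd_v1 (α := α) (β := β) (sin_ne ht) (rho_pos he0 he1).ne') hμ).trans ?_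
  refine add_le_add (add_le_add (Set.encard_le_encard ?_) (Set.encard_le_encard ?_)) le_rfl
  · rintro t ⟨ht, h0⟩
    refine ⟨ht, ?_⟩
    rcases div_eq_zero_iff.1 h0 with h2 | h2
    · exact h2
    · exact absurd h2 (rho_pos he0 he1).ne'
  · rintro t ⟨ht, h0⟩
    refine ⟨ht, ?_⟩
    have h1 := rho_pos (t := t) he0 he1
    rcases div_eq_zero_iff.1 (neg_eq_zero.1 h0) with h2 | h2
    · exact (mul_eq_zero.1 h2).resolve_left (sin_ne ht)
    · exact absurd h2 (pow_ne_zero 2 h1.ne')

theorem count_m0 (hb0 : 0 < b) (hα : α ≠ 0) :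
    {t | t ∈ Set.Ioo 0 π ∧ β + α * b * (cos t / sin t) = 0}.encard ≤ 1 := by
  refine level_le_one (f := fun t => β + α * b * (cos t / sin t)) (a := 0) (b := π)
    (fun t ht => hd_m0 (b := b) (α := α) (β := β) (sin_ne ht)) ?_ 0
  intro t ht h0
  have h2 := sin_ne ht
  exact div_ne_zero (mul_ne_zero hα hb0.ne') (pow_ne_zero 2 h2) (neg_eq_zero.1 h0)

theorem count_Lσ (he0 : 0 < e) (he1 : e < 1) (hβ : β ≠ 0) :
    {t | t ∈ Set.Ioo 0 π ∧ LL e b α β t = 0}.encard ≤ 1 := by
  have h := level_le_one (f := fun t => β * ((cos t - e) / sin t) - α * b) (a := 0) (b := π)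
    (fun t ht => hd_Lσ (b := b) (α := α) (β := β) (e := e) (sin_ne ht)) (by
      intro t ht h0
      have h1 := rho_pos (t := t) he0 he1
      have h2 := sin_ne ht
      exact div_ne_zero (mul_ne_zero hβ h1.ne') (pow_ne_zero 2 h2) (neg_eq_zero.1 h0)) 0
  refine le_trans (Set.encard_le_encard ?_) h
  rintro t ⟨ht, h0⟩
  refine ⟨ht, ?_⟩
  have h2 := sin_ne ht
  unfold LL at h0
  field_simp
  linarith

theorem count_MM (hb0 : 0 < b) (he0 : 0 < e) (he1 : e < 1) (hne : α * β ≠ 0) :
    {t | t ∈ Set.Ioo 0 π ∧ MM e b α β t = 0}.encard ≤ 2 := by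
  have hα : α ≠ 0 := left_ne_zero_of_mul hne
  have h := level_le (f := MM e b α β) (a := 0) (b := π)
    (fun t ht => hd_MM (b := b) (α := α) (β := β) (e := e) (sin_ne ht)) 0
  refine h.trans ?_
  have h6 : {t | t ∈ Set.Ioo 0 π ∧
      -(3 * α * b * cos t * rho e t / sin t ^ 4) = 0}.encard ≤ 1 := by
    have h7 : {t | t ∈ Set.Ioo 0 π ∧
      -(3 * α * b * cos t * rho e t / sin t ^ 4) = 0} ⊆ {π / 2} := by
      rintro t ⟨ht, h0⟩
      have h1 := rho_pos (t := t) he0 he1
      refine eq_pi_div_two ht ?_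
      rcases div_eq_zero_iff.1 (neg_eq_zero.1 h0) with h2 | h2
      · by_contra hc
        exact mul_ne_zero (mul_ne_zero (mul_ne_zero (mul_ne_zero (by norm_num) hα) hb0.ne') hc)
          h1.ne' h2
      · exact absurd h2 (pow_ne_zero 4 (sin_ne ht))
    exact (Set.encard_le_encard h7).trans (by simp)
  calc _ ≤ (1 : ℕ∞) + 1 := by gcongr
    _ = 2 := by norm_num

theorem one_sub_pos (he0 : 0 < e) (he1 : e < 1) (t : ℝ) : 0 < 1 - e * cos t ^ 3 := by
  have h1 : cos t ^ 3 ≤ 1 := by
    have h2 := cos_le_one t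
    have h3 := neg_one_le_cos t
    have h4 : 0 ≤ cos t ^ 2 := sq_nonneg _
    have h5 : cos t ^ 2 ≤ 1 := cos_sq_le_one t
    nlinarith
  nlinarith

/-- the bound in the case of perpendicular planes -/
theorem arcP_le (hb0 : 0 < b) (he0 : 0 < e) (he1 : e < 1)
    (hK : α ^ 2 + β ^ 2 = 1) {μ : ℝ} (hμ : 0 < μ) :
    {t | t ∈ Set.Ioo 0 π ∧ (v1 e b α β t = μ ∨ v1 e b α β t = -μ)}.encard +
      2 * {t | t ∈ Set.Ioo 0 π ∧ LL e b α β t = 0}.encard ≤ nb (α * β) := by
  have h3 := count_v1 (b := b) (α := α) (β := β) he0 he1 hμ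
  unfold nb
  split_ifs with h1 h2
  · have hα : α ≠ 0 := left_ne_zero_of_mul h1.ne'
    have hβ : β ≠ 0 := right_ne_zero_of_mul h1.ne'
    have h4 := count_m0 (β := β) hb0 hα
    have h5 := count_Lσ (b := b) (α := α) he0 he1 hβ
    have h6 : {t | t ∈ Set.Ioo 0 π ∧ MM e b α β t = 0}.encard ≤ 0 := by
      rw [encard_zero_of]
      rintro t ⟨ht, h⟩
      have h7 := one_sub_pos he0 he1 t
      have h8 := sin_pos_of_mem_Ioo ht
      rcases pos_and_pos_or_neg_and_neg_of_mul_pos h1 with ⟨ha, hbb⟩ | ⟨ha, hbb⟩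
      · have : 0 < MM e b α β t := by unfold MM; positivity
        linarith
      · have h10 : MM e b α β t = -((-β) * e + (-α) * b * ((1 - e * cos t ^ 3) / sin t ^ 3)) := by
          unfold MM; ring
        have h11 : 0 < -β := by linarith
        have h12 : 0 < -α := by linarith
        have h13 : 0 < (-β) * e + (-α) * b * ((1 - e * cos t ^ 3) / sin t ^ 3) := by positivity
        rw [h10] at h
        linarith
    calc _ ≤ ((1 : ℕ∞) + 0 + 1) + 2 * 1 := by
          gcongr
          refine h3.trans ?_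
          gcongr
      _ = ((4 : ℕ) : ℕ∞) := by norm_num
  · have hα : α ≠ 0 := left_ne_zero_of_mul h2.ne
    have hβ : β ≠ 0 := right_ne_zero_of_mul h2.ne
    have h4 := count_m0 (β := β) hb0 hα
    have h5 := count_Lσ (b := b) (α := α) he0 he1 hβ
    have h6 := count_MM hb0 he0 he1 h2.ne
    calc _ ≤ ((1 : ℕ∞) + 2 + 1) + 2 * 1 := by
          gcongr
          refine h3.trans ?_
          gcongr
      _ = ((6 : ℕ) : ℕ∞) := by norm_num
  · have h0 : α * β = 0 := le_antisymm (not_lt.1 h1) (not_lt.1 h2)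
    rcases mul_eq_zero.1 h0 with hα | hβ
    · have hβ : β ≠ 0 := by
        rintro rfl
        rw [hα] at hK
        norm_num at hK
      have h4 : {t | t ∈ Set.Ioo 0 π ∧ β + α * b * (cos t / sin t) = 0}.encard ≤ 0 := by
        rw [encard_zero_of]
        rintro t ⟨ht, h⟩
        rw [hα] at h
        apply hβ
        linarith
      have h5 := count_Lσ (b := b) (α := α) he0 he1 hβ
      have h6 : {t | t ∈ Set.Ioo 0 π ∧ MM e b α β t = 0}.encard ≤ 0 := by
        rw [encard_zero_of]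
        rintro t ⟨ht, h⟩
        unfold MM at h
        rw [hα] at h
        apply mul_ne_zero hβ he0.ne'
        linarith
      calc _ ≤ ((0 : ℕ∞) + 0 + 1) + 2 * 1 := by
            gcongr
            refine h3.trans ?_
            gcongr
        _ = ((3 : ℕ) : ℕ∞) := by norm_num
    · have hα : α ≠ 0 := by
        rintro rfl
        rw [hβ] at hK
        norm_num at hK
      have h4 := count_m0 (β := β) hb0 hα
      have h5 : {t | t ∈ Set.Ioo 0 π ∧ LL e b α β t = 0}.encard ≤ 0 := by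
        rw [encard_zero_of]
        rintro t ⟨ht, h⟩
        unfold LL at h
        rw [hβ] at h
        apply mul_ne_zero (mul_ne_zero hα hb0.ne') (sin_ne ht)
        linarith
      have h6 : {t | t ∈ Set.Ioo 0 π ∧ MM e b α β t = 0}.encard ≤ 0 := by
        rw [encard_zero_of]
        rintro t ⟨ht, h⟩
        unfold MM at h
        rw [hβ] at h
        apply mul_ne_zero (mul_ne_zero hα hb0.ne') (div_ne_zero (one_sub_pos he0 he1 t).ne'
          (pow_ne_zero 3 (sin_ne ht)))
        linarith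
      calc _ ≤ ((1 : ℕ∞) + 0 + 1) + 2 * 0 := by
            gcongr
            refine h3.trans ?_
            gcongr
        _ ≤ ((3 : ℕ) : ℕ∞) := by norm_num

end

end Run7.h36.CE
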