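import Pool.Agent.Run7.h36.CE.ArcP

/-!
Solutions of the stationarity equations in coordinates.
-/

set_option autoImplicit false

namespace Run7.h36.CE

open Real

/-- The equations for the stationary points: `(C, S)` is the point of the circle (in units of `r`),
`t` is the eccentric anomaly of the point of the ellipse; `(x₁, x₂, α)` and `(y₁, y₂, β)` are the axes of
the ellipse. -/
def Eqs (x₁ x₂ y₁ y₂ a b e r : ℝ) (C S t : ℝ) : Prop :=
  C ^ 2 + S ^ 2 = 1 ∧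
  St e b x₁ y₁ t * S - St e b x₂ y₂ t * C = 0 ∧
  r * (C * Sp b x₁ y₁ t + S * Sp b x₂ y₂ t) = a * (e * sin t * rho e t)

theorem sq_eq_one_iff_of_side {X : ℝ} (h : X ^ 2 = 1) : X = 1 ∨ X = -1 := by
  have h1 : (X - 1) * (X + 1) = 0 := by linear_combination h
  rcases mul_eq_zero.1 h1 with h2 | h2
  · left; linarith
  · right; linarith

section
variable {x₁ x₂ α y₁ y₂ β a b e r : ℝ}

theorem sumSt (hb : b ^ 2 = 1 - e ^ 2) (hx : x₁ ^ 2 + x₂ ^ 2 + α ^ 2 = 1)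
    (hy : y₁ ^ 2 + y₂ ^ 2 + β ^ 2 = 1) (hxy : x₁ * y₁ + x₂ * y₂ + α * β = 0) (t : ℝ) :
    St e b x₁ y₁ t ^ 2 + St e b x₂ y₂ t ^ 2 = Z e b α β t := by
  have h := sq_id (e := e) (b := b) (t := t) hb
  unfold Z
  rw [← h]
  unfold St
  linear_combination (cos t - e) ^ 2 * hx + (b * sin t) ^ 2 * hy
    + 2 * (cos t - e) * (b * sin t) * hxy

theorem sumStSp (hb : b ^ 2 = 1 - e ^ 2) (hx : x₁ ^ 2 + x₂ ^ 2 + α ^ 2 = 1)
    (hy : y₁ ^ 2 + y₂ ^ 2 + β ^ 2 = 1) (hxy : x₁ * y₁ + x₂ * y₂ + α * β = 0) (t : ℝ) :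
    St e b x₁ y₁ t * Sp b x₁ y₁ t + St e b x₂ y₂ t * Sp b x₂ y₂ t
      + St e b α β t * Sp b α β t = e * sin t * rho e t := by
  unfold St Sp rho
  linear_combination (cos t - e) * (-sin t) * hx + (b * sin t) * (b * cos t) * hy
    + ((cos t - e) * (b * cos t) + (b * sin t) * (-sin t)) * hxy + sin t * cos t * hb

/-- the bound on the open arc, planes not perpendicular -/
theorem sol_le (hb : b ^ 2 = 1 - e ^ 2) (hb0 : 0 < b) (he0 : 0 < e) (he1 : e < 1)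
    (ha : 0 < a) (hr : 0 < r) (hx : x₁ ^ 2 + x₂ ^ 2 + α ^ 2 = 1)
    (hy : y₁ ^ 2 + y₂ ^ 2 + β ^ 2 = 1) (hxy : x₁ * y₁ + x₂ * y₂ + α * β = 0)
    (hK : α ^ 2 + β ^ 2 < 1) :
    {p : ℝ × ℝ × ℝ | p.2.2 ∈ Set.Ioo 0 π ∧ Eqs x₁ x₂ y₁ y₂ a b e r p.1 p.2.1 p.2.2}.encard
      ≤ nb (α * β) := by
  have hμ : 0 < a * e / r := by positivity
  refine le_trans ?_ (arc_le (α := α) (β := β) hb hb0 he0 he1 hK hμ)
  refine le_trans (Set.encard_le_encard ?_) (Set.encard_image_le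
    (fun t => (a * e / r * St e b x₁ y₁ t / w e b α β t,
      a * e / r * St e b x₂ y₂ t / w e b α β t, t)) _)
  rintro ⟨C, S, t⟩ ⟨ht, h1, h2, h3⟩
  simp only at ht h1 h2 h3 ⊢
  have hρ := rho_pos (t := t) he0 he1
  have hs := sin_pos_of_mem_Ioo ht
  have hZ := Z_pos (t := t) he0 he1 hb hK
  have hsum := sumSt hb hx hy hxy t
  have hsum2 := sumStSp hb hx hy hxy t
  -- the signed length
  obtain ⟨ς, hς⟩ : ∃ ς, ς = C * St e b x₁ y₁ t + S * St e b x₂ y₂ t := ⟨_, rfl⟩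
  have hS1 : St e b x₁ y₁ t = ς * C := by
    rw [hς]; linear_combination (-St e b x₁ y₁ t) * h1 + S * h2
  have hS2 : St e b x₂ y₂ t = ς * S := by
    rw [hς]; linear_combination (-St e b x₂ y₂ t) * h1 - C * h2
  have hςZ : ς ^ 2 = Z e b α β t := by
    rw [← hsum, hS1, hS2]; linear_combination (-ς ^ 2) * h1
  have hw : sin t * rho e t * w e b α β t
      = e * sin t * rho e t - St e b α β t * Sp b α β t := by
    unfold w
    field_simp
  have h4 : r * (sin t * rho e t * w e b α β t) = a * (e * sin t * rho e t) * ς := by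
    linear_combination r * hw - r * hsum2 + r * Sp b x₁ y₁ t * hS1 + r * Sp b x₂ y₂ t * hS2 + ς * h3
  have h5 : w e b α β t = a * e / r * ς := by
    have h6 : sin t * rho e t ≠ 0 := mul_ne_zero hs.ne' hρ.ne'
    have h7 : (sin t * rho e t) * (w e b α β t * r - a * e * ς) = 0 := by
      linear_combination h4
    have h8 := (mul_eq_zero.1 h7).resolve_left h6
    field_simp
    linarith
  have hς0 : ς ≠ 0 := by
    intro h
    rw [h] at hςZ
    norm_num at hςZ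
    exact hZ.ne hςZ
  have hsq := Real.sqrt_pos.2 hZ
  refine ⟨t, ⟨ht, ?_⟩, ?_⟩
  · have h8 : |ς| = √(Z e b α β t) := by rw [← hςZ, Real.sqrt_sq_eq_abs]
    unfold phi
    rw [← h8, h5]
    rcases abs_choice ς with h9 | h9
    · left; rw [h9]; field_simp
    · right; rw [h9]; field_simp
  · simp only
    rw [h5, hS1, hS2]
    refine Prod.ext ?_ (Prod.ext ?_ rfl)
    · simp only; field_simp
    · simp only; field_simp

/-- the bound on the open arc, perpendicular planes -/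
theorem solP_le (hb0 : 0 < b) (he0 : 0 < e) (he1 : e < 1)
    (ha : 0 < a) (hr : 0 < r) (hx : x₁ ^ 2 + x₂ ^ 2 + α ^ 2 = 1)
    (hy : y₁ ^ 2 + y₂ ^ 2 + β ^ 2 = 1) (hxy : x₁ * y₁ + x₂ * y₂ + α * β = 0)
    (hK : α ^ 2 + β ^ 2 = 1) :
    {p : ℝ × ℝ × ℝ | p.2.2 ∈ Set.Ioo 0 π ∧ Eqs x₁ x₂ y₁ y₂ a b e r p.1 p.2.1 p.2.2}.encard
      ≤ nb (α * β) := by
  have hμ : 0 < a * e / r := by positivity
  refine le_trans ?_ (arcP_le (α := α) (β := β) hb0 he0 he1 hK hμ)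
  have h0 : (α * x₁ + β * y₁) ^ 2 + (α * x₂ + β * y₂) ^ 2 = 0 := by
    linear_combination α ^ 2 * hx + β ^ 2 * hy + 2 * α * β * hxy
      - (α ^ 2 + β ^ 2) * hK
  have h01 : α * x₁ + β * y₁ = 0 := by nlinarith [sq_nonneg (α * x₁ + β * y₁), sq_nonneg (α * x₂ + β * y₂)]
  have h02 : α * x₂ + β * y₂ = 0 := by nlinarith [sq_nonneg (α * x₁ + β * y₁), sq_nonneg (α * x₂ + β * y₂)]
  obtain ⟨l₁, hl₁⟩ : ∃ l, l = β * x₁ - α * y₁ := ⟨_, rfl⟩
  obtain ⟨l₂, hl₂⟩ : ∃ l, l = β * x₂ - α * y₂ := ⟨_, rfl⟩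
  have hx1 : x₁ = β * l₁ := by rw [hl₁]; linear_combination α * h01 - x₁ * hK
  have hx2 : x₂ = β * l₂ := by rw [hl₂]; linear_combination α * h02 - x₂ * hK
  have hy1 : y₁ = -(α * l₁) := by rw [hl₁]; linear_combination β * h01 - y₁ * hK
  have hy2 : y₂ = -(α * l₂) := by rw [hl₂]; linear_combination β * h02 - y₂ * hK
  have hl : l₁ ^ 2 + l₂ ^ 2 = 1 := by
    rw [hl₁, hl₂]
    linear_combination β ^ 2 * hx + α ^ 2 * hy - 2 * α * β * hxy + hK
  have hSt1 : ∀ t, St e b x₁ y₁ t = l₁ * LL e b α β t := by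
    intro t; rw [hx1, hy1]; unfold St LL; ring
  have hSt2 : ∀ t, St e b x₂ y₂ t = l₂ * LL e b α β t := by
    intro t; rw [hx2, hy2]; unfold St LL; ring
  have hSp1 : ∀ t, Sp b x₁ y₁ t = l₁ * Lp b α β t := by
    intro t; rw [hx1, hy1]; unfold Sp Lp; ring
  have hSp2 : ∀ t, Sp b x₂ y₂ t = l₂ * Lp b α β t := by
    intro t; rw [hx2, hy2]; unfold Sp Lp; ring
  have hsub : {p : ℝ × ℝ × ℝ | p.2.2 ∈ Set.Ioo 0 π ∧ Eqs x₁ x₂ y₁ y₂ a b e r p.1 p.2.1 p.2.2} ⊆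
      ((fun t => (l₁ * (-(a * e / r) / v1 e b α β t), l₂ * (-(a * e / r) / v1 e b α β t), t)) ''
        {t | t ∈ Set.Ioo 0 π ∧ (v1 e b α β t = a * e / r ∨ v1 e b α β t = -(a * e / r))}) ∪
      (((fun t => (l₁ * (-(a * e / r) / v1 e b α β t) - l₂ * √(1 - (-(a * e / r) / v1 e b α β t) ^ 2),
          l₂ * (-(a * e / r) / v1 e b α β t) + l₁ * √(1 - (-(a * e / r) / v1 e b α β t) ^ 2), t)) ''
        {t | t ∈ Set.Ioo 0 π ∧ LL e b α β t = 0}) ∪
      ((fun t => (l₁ * (-(a * e / r) / v1 e b α β t) + l₂ * √(1 - (-(a * e / r) / v1 e b α β t) ^ 2),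
          l₂ * (-(a * e / r) / v1 e b α β t) - l₁ * √(1 - (-(a * e / r) / v1 e b α β t) ^ 2), t)) ''
        {t | t ∈ Set.Ioo 0 π ∧ LL e b α β t = 0})) := by
    rintro ⟨C, S, t⟩ ⟨ht, h1, h2, h3⟩
    simp only at ht h1 h2 h3
    have hρ := rho_pos (t := t) he0 he1
    have hs := sin_pos_of_mem_Ioo ht
    rw [hSt1, hSt2] at h2
    rw [hSp1, hSp2] at h3
    obtain ⟨X, hX⟩ : ∃ X, X = l₁ * C + l₂ * S := ⟨_, rfl⟩
    obtain ⟨Y, hY⟩ : ∃ Y, Y = l₁ * S - l₂ * C := ⟨_, rfl⟩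
    have hXY : X ^ 2 + Y ^ 2 = 1 := by
      rw [hX, hY]; linear_combination (C ^ 2 + S ^ 2) * hl + h1
    have hC : C = l₁ * X - l₂ * Y := by
      rw [hX, hY]; linear_combination (-C) * hl
    have hSS : S = l₂ * X + l₁ * Y := by
      rw [hX, hY]; linear_combination (-S) * hl
    have hLY : LL e b α β t * Y = 0 := by rw [hY]; linear_combination h2
    have hLp : Lp b α β t = -(sin t * rho e t * v1 e b α β t) := by
      unfold Lp v1
      field_simp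
      ring
    have hvX : v1 e b α β t * X = -(a * e / r) := by
      have h6 : sin t * rho e t ≠ 0 := mul_ne_zero hs.ne' hρ.ne'
      have h7 : (sin t * rho e t) * (v1 e b α β t * X * r + a * e) = 0 := by
        rw [hLp] at h3
        rw [hX]
        linear_combination (-1) * h3
      have h8 := (mul_eq_zero.1 h7).resolve_left h6
      field_simp
      linarith
    have hv0 : v1 e b α β t ≠ 0 := by
      intro h
      rw [h, zero_mul] at hvX
      linarith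
    have hXv : X = -(a * e / r) / v1 e b α β t := by
      rw [← hvX]; field_simp
    rcases mul_eq_zero.1 hLY with hL | hY0
    · right
      have hYsq : Y ^ 2 = 1 - X ^ 2 := by linarith
      rcases le_total 0 Y with hY1 | hY1
      · left
        refine ⟨t, ⟨ht, hL⟩, ?_⟩
        have hYs : √(1 - X ^ 2) = Y := by rw [← hYsq]; exact Real.sqrt_sq hY1
        simp only
        rw [← hXv, hYs]
        refine Prod.ext ?_ (Prod.ext ?_ rfl)
        · exact hC.symm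
        · exact hSS.symm
      · right
        refine ⟨t, ⟨ht, hL⟩, ?_⟩
        have hYs : √(1 - X ^ 2) = -Y := by
          rw [← hYsq, ← neg_sq]; exact Real.sqrt_sq (by linarith)
        simp only
        rw [← hXv, hYs]
        refine Prod.ext ?_ (Prod.ext ?_ rfl)
        · simp only; rw [hC]; ring
        · simp only; rw [hSS]; ring
    · left
      have hX1 : X ^ 2 = 1 := by rw [hY0] at hXY; linarith
      refine ⟨t, ⟨ht, ?_⟩, ?_⟩
      · rcases sq_eq_one_iff_of_side hX1 with h | h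
        · right; rw [h] at hvX; linarith
        · left; rw [h] at hvX; linarith
      · simp only
        rw [← hXv]
        refine Prod.ext ?_ (Prod.ext ?_ rfl)
        · simp only; rw [hC, hY0]; ring
        · simp only; rw [hSS, hY0]; ring
  refine (Set.encard_le_encard hsub).trans ?_
  refine (Set.encard_union_le _ _).trans ?_
  refine add_le_add (Set.encard_image_le _ _) ?_
  refine (Set.encard_union_le _ _).trans ?_
  rw [two_mul]
  exact add_le_add (Set.encard_image_le _ _) (Set.encard_image_le _ _)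

/-- the bound on the open arc -/
theorem solA_le (hb : b ^ 2 = 1 - e ^ 2) (hb0 : 0 < b) (he0 : 0 < e) (he1 : e < 1)
    (ha : 0 < a) (hr : 0 < r) (hx : x₁ ^ 2 + x₂ ^ 2 + α ^ 2 = 1)
    (hy : y₁ ^ 2 + y₂ ^ 2 + β ^ 2 = 1) (hxy : x₁ * y₁ + x₂ * y₂ + α * β = 0) :
    {p : ℝ × ℝ × ℝ | p.2.2 ∈ Set.Ioo 0 π ∧ Eqs x₁ x₂ y₁ y₂ a b e r p.1 p.2.1 p.2.2}.encard
      ≤ nb (α * β) := by
  have hK : α ^ 2 + β ^ 2 ≤ 1 := by
    have h1 : (x₁ ^ 2 + x₂ ^ 2) * (y₁ ^ 2 + y₂ ^ 2) - (α * β) ^ 2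
        = (x₁ * y₂ - x₂ * y₁) ^ 2 := by
      linear_combination (x₁ * y₁ + x₂ * y₂ - α * β) * hxy
    have h2 : (1 - α ^ 2) * (1 - β ^ 2) - (α * β) ^ 2 = (x₁ * y₂ - x₂ * y₁) ^ 2 := by
      rw [← h1]
      linear_combination (-(y₁ ^ 2 + y₂ ^ 2)) * hx - (1 - α ^ 2) * hy
    nlinarith [sq_nonneg (x₁ * y₂ - x₂ * y₁)]
  rcases hK.lt_or_eq with h | h
  · exact sol_le hb hb0 he0 he1 ha hr hx hy hxy h
  · exact solP_le hb0 he0 he1 ha hr hx hy hxy h

theorem two_dirs {m₁ m₂ C S : ℝ} (hm : m₁ ^ 2 + m₂ ^ 2 = 1) (hC : C ^ 2 + S ^ 2 = 1)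
    (h : C * m₂ = S * m₁) : (C = m₁ ∧ S = m₂) ∨ (C = -m₁ ∧ S = -m₂) := by
  have h1 : C = (C * m₁ + S * m₂) * m₁ := by linear_combination (-C) * hm + m₂ * h
  have h2 : S = (C * m₁ + S * m₂) * m₂ := by linear_combination (-S) * hm - m₁ * h
  have h3 : (C * m₁ + S * m₂) ^ 2 = 1 := by
    linear_combination (C ^ 2 + S ^ 2) * hm + hC - (C * m₂ - S * m₁) * h
  rcases sq_eq_one_iff_of_side h3 with h4 | h4
  · left; rw [h4] at h1 h2; constructor <;> linarith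
  · right; rw [h4] at h1 h2; constructor <;> linarith

/-- the bound at the ends of the arcs -/
theorem solE_le (hb0 : 0 < b) (he0 : 0 < e) (he1 : e < 1)
    (hr : 0 < r) (hx : x₁ ^ 2 + x₂ ^ 2 + α ^ 2 = 1)
    (hy : y₁ ^ 2 + y₂ ^ 2 + β ^ 2 = 1) (hxy : x₁ * y₁ + x₂ * y₂ + α * β = 0) {t₀ : ℝ}
    (ht₀ : sin t₀ = 0) :
    {p : ℝ × ℝ × ℝ | p.2.2 = t₀ ∧ Eqs x₁ x₂ y₁ y₂ a b e r p.1 p.2.1 p.2.2}.encard
      ≤ if α * β = 0 then 2 else 0 := by
  have hc : cos t₀ ^ 2 = 1 := by rw [cos_sq', ht₀]; ring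
  have hc0 : cos t₀ ≠ 0 := by intro h; rw [h] at hc; norm_num at hc
  have hce : cos t₀ - e ≠ 0 := by
    rcases sq_eq_one_iff_of_side hc with h | h
    · rw [h]; linarith
    · rw [h]; linarith
  have key : ∀ C S, Eqs x₁ x₂ y₁ y₂ a b e r C S t₀ →
      C ^ 2 + S ^ 2 = 1 ∧ C * x₂ = S * x₁ ∧ C * y₁ + S * y₂ = 0 := by
    rintro C S ⟨h1, h2, h3⟩
    refine ⟨h1, ?_, ?_⟩
    · unfold St at h2
      rw [ht₀] at h2
      have h4 : (cos t₀ - e) * (C * x₂ - S * x₁) = 0 := by linear_combination (-1) * h2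
      have := (mul_eq_zero.1 h4).resolve_left hce
      linarith
    · unfold Sp at h3
      rw [ht₀] at h3
      have h4 : (r * b * cos t₀) * (C * y₁ + S * y₂) = 0 := by linear_combination h3
      exact (mul_eq_zero.1 h4).resolve_left (mul_ne_zero (mul_ne_zero hr.ne' hb0.ne') hc0)
  split_ifs with h0
  · obtain ⟨m₁, m₂, hm, hmm⟩ : ∃ m₁ m₂ : ℝ, m₁ ^ 2 + m₂ ^ 2 = 1 ∧
        ∀ C S, Eqs x₁ x₂ y₁ y₂ a b e r C S t₀ → C * m₂ = S * m₁ := by
      rcases mul_eq_zero.1 h0 with h | h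
      · refine ⟨x₁, x₂, by rw [h] at hx; linarith, fun C S hCS => (key C S hCS).2.1⟩
      · refine ⟨-y₂, y₁, by rw [h] at hy; linarith, fun C S hCS => ?_⟩
        have := (key C S hCS).2.2
        linarith
    have hsub : {p : ℝ × ℝ × ℝ | p.2.2 = t₀ ∧ Eqs x₁ x₂ y₁ y₂ a b e r p.1 p.2.1 p.2.2} ⊆
        {(m₁, m₂, t₀), (-m₁, -m₂, t₀)} := by
      rintro ⟨C, S, t⟩ ⟨ht, hE⟩
      simp only at ht hE
      subst ht
      rcases two_dirs hm (key C S hE).1 (hmm C S hE) with ⟨h1, h2⟩ | ⟨h1, h2⟩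
      · left; rw [h1, h2]
      · right; rw [h1, h2]; rfl
    refine (Set.encard_le_encard hsub).trans ((Set.encard_insert_le _ _).trans ?_)
    rw [Set.encard_singleton]
    norm_num
  · rw [encard_zero_of]
    rintro ⟨C, S, t⟩ ⟨ht, hE⟩
    simp only at ht hE
    subst ht
    obtain ⟨h1, h2, h3⟩ := key C S hE
    apply h0
    have h4 : x₁ = (x₁ * C + x₂ * S) * C := by linear_combination (-x₁) * h1 - S * h2
    have h5 : x₂ = (x₁ * C + x₂ * S) * S := by linear_combination (-x₂) * h1 + C * h2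
    have h6 : x₁ * y₁ + x₂ * y₂ = (x₁ * C + x₂ * S) * (C * y₁ + S * y₂) := by
      linear_combination y₁ * h4 + y₂ * h5
    rw [h3, mul_zero] at h6
    linarith

/-- all solutions: at most ten -/
theorem sol_le_ten (hb : b ^ 2 = 1 - e ^ 2) (hb0 : 0 < b) (he0 : 0 < e) (he1 : e < 1)
    (ha : 0 < a) (hr : 0 < r) (hx : x₁ ^ 2 + x₂ ^ 2 + α ^ 2 = 1)
    (hy : y₁ ^ 2 + y₂ ^ 2 + β ^ 2 = 1) (hxy : x₁ * y₁ + x₂ * y₂ + α * β = 0) :
    {p : ℝ × ℝ × ℝ | p.2.2 ∈ Set.Ioc (-π) π ∧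
      Eqs x₁ x₂ y₁ y₂ a b e r p.1 p.2.1 p.2.2}.encard ≤ 10 := by
  have h1 := solA_le hb hb0 he0 he1 ha hr hx hy hxy
  have h2 := solA_le (y₁ := -y₁) (y₂ := -y₂) (β := -β) (x₁ := x₁) (x₂ := x₂) (α := α)
    hb hb0 he0 he1 ha hr hx (by linarith) (by linarith)
  have h3 := solE_le (a := a) (t₀ := 0) hb0 he0 he1 hr hx hy hxy sin_zero
  have h4 := solE_le (a := a) (t₀ := π) hb0 he0 he1 hr hx hy hxy sin_pi
  have hsub : {p : ℝ × ℝ × ℝ | p.2.2 ∈ Set.Ioc (-π) π ∧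
      Eqs x₁ x₂ y₁ y₂ a b e r p.1 p.2.1 p.2.2} ⊆
      ({p : ℝ × ℝ × ℝ | p.2.2 ∈ Set.Ioo 0 π ∧ Eqs x₁ x₂ y₁ y₂ a b e r p.1 p.2.1 p.2.2} ∪
      ((fun p : ℝ × ℝ × ℝ => (p.1, p.2.1, -p.2.2)) ''
        {p : ℝ × ℝ × ℝ | p.2.2 ∈ Set.Ioo 0 π ∧
          Eqs x₁ x₂ (-y₁) (-y₂) a b e r p.1 p.2.1 p.2.2})) ∪
      ({p : ℝ × ℝ × ℝ | p.2.2 = 0 ∧ Eqs x₁ x₂ y₁ y₂ a b e r p.1 p.2.1 p.2.2} ∪
       {p : ℝ × ℝ × ℝ | p.2.2 = π ∧ Eqs x₁ x₂ y₁ y₂ a b e r p.1 p.2.1 p.2.2}) := by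
    rintro ⟨C, S, t⟩ ⟨ht, hE⟩
    simp only at ht hE
    rcases lt_trichotomy t 0 with h | h | h
    · left; right
      refine ⟨(C, S, -t), ⟨⟨?_, ?_⟩, ?_⟩, ?_⟩
      · simp only; linarith
      · simp only; linarith [ht.1]
      · simp only
        obtain ⟨e1, e2, e3⟩ := hE
        refine ⟨e1, ?_, ?_⟩
        · unfold St at e2 ⊢
          rw [cos_neg, sin_neg]
          linear_combination e2
        · unfold Sp rho at e3 ⊢
          rw [cos_neg, sin_neg]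
          linear_combination (-1) * e3
      · simp
    · right; left; exact ⟨h, hE⟩
    · rcases ht.2.lt_or_eq with h' | h'
      · left; left; exact ⟨⟨h, h'⟩, hE⟩
      · right; right; exact ⟨h', hE⟩
  refine (Set.encard_le_encard hsub).trans ?_
  refine (Set.encard_union_le _ _).trans ?_
  refine (add_le_add (Set.encard_union_le _ _) (Set.encard_union_le _ _)).trans ?_
  refine (add_le_add (add_le_add h1 ((Set.encard_image_le _ _).trans h2)) (add_le_add h3 h4)).trans ?_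
  have hneg : α * -β = -(α * β) := by ring
  rw [hneg]
  unfold nb
  rcases lt_trichotomy (α * β) 0 with h | h | h
  · have g1 : ¬ (0 < α * β) := by linarith
    have g2 : 0 < -(α * β) := by linarith
    simp only [g1, h, g2, h.ne, if_true, if_false]
    norm_num
  · simp only [h, lt_irrefl, neg_zero, if_true, if_false]
    norm_num
  · have g2 : ¬ (0 < -(α * β)) := by linarith
    have g3 : -(α * β) < 0 := by linarith
    simp only [h, g2, g3, h.ne', if_true, if_false]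
    norm_num

end

end Run7.h36.CE
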