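import Mathlib

/-!
Counting lemmas of Rolle type: the number of zeros of a function on an interval is at most one more
than the number of zeros of its derivative.
-/

set_option autoImplicit false

namespace Run7.h36.CE

theorem aux_count (T : Set ℝ) (hT : T.Finite) (F : Finset ℝ) :
    (∀ x ∈ F, ∀ y ∈ F, x < y → ∃ z ∈ T, x < z ∧ z < y) →
    ∀ m ∈ F, (∀ x ∈ F, x ≤ m) → F.card ≤ (T ∩ Set.Iio m).ncard + 1 := by
  classical
  induction F using Finset.induction_on_max with
  | empty => intro _ m hm; simp at hm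
  | insert a F ha ih =>
    intro h m hm hmax
    have hma : m = a := by
      rcases Finset.mem_insert.1 hm with h1 | h1
      · exact h1
      · have := hmax a (Finset.mem_insert_self a F)
        exact absurd (ha m h1) (not_lt.2 this)
    subst hma
    have hnot : m ∉ F := fun h1 => lt_irrefl _ (ha m h1)
    rw [Finset.card_insert_of_notMem hnot]
    by_cases hF : F.Nonempty
    · have hm' := F.max'_mem hF
      have h2 := ih (fun x hx y hy => h x (Finset.mem_insert_of_mem hx) y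
        (Finset.mem_insert_of_mem hy)) (F.max' hF) hm' (fun x hx => F.le_max' x hx)
      obtain ⟨z, hz, hz1, hz2⟩ := h (F.max' hF) (Finset.mem_insert_of_mem hm') m
        (Finset.mem_insert_self m F) (ha _ hm')
      have h3 : insert z (T ∩ Set.Iio (F.max' hF)) ⊆ T ∩ Set.Iio m := by
        intro y hy
        rcases Set.mem_insert_iff.1 hy with h4 | h4
        · subst h4; exact ⟨hz, hz2⟩
        · exact ⟨h4.1, lt_trans h4.2 (lt_trans hz1 hz2)⟩
      have h5 : z ∉ T ∩ Set.Iio (F.max' hF) := fun h6 => absurd h6.2 (not_lt.2 hz1.le)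
      have h7 := Set.ncard_le_ncard h3 (hT.inter_of_left _)
      rw [Set.ncard_insert_of_notMem h5 (hT.inter_of_left _)] at h7
      omega
    · rw [Finset.not_nonempty_iff_eq_empty] at hF
      subst hF
      simp

/-- If between any two points of `S` there is a point of `T`, then `|S| ≤ |T| + 1`. -/
theorem encard_le_of_interlace {S T : Set ℝ}
    (h : ∀ x ∈ S, ∀ y ∈ S, x < y → ∃ z ∈ T, x < z ∧ z < y) : S.encard ≤ T.encard + 1 := by
  by_cases hT : T.Finite
  · by_contra hc
    rw [not_le] at hc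
    have h1 : T.encard + 1 + 1 ≤ S.encard := by
      exact Order.add_one_le_of_lt hc
    obtain ⟨F, hFS, hF⟩ := Set.exists_subset_encard_eq h1
    have hFfin : F.Finite := by
      rw [← Set.encard_ne_top_iff, hF, ← hT.cast_ncard_eq]
      exact_mod_cast ENat.natCast_ne_top (T.ncard + 1 + 1)
    have hne : hFfin.toFinset.Nonempty := by
      rw [Set.Finite.toFinset_nonempty]
      rw [← Set.encard_ne_zero, hF]
      simp
    have h2 := aux_count T hT hFfin.toFinset (fun x hx y hy hxy =>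
      h x (hFS ((Set.Finite.mem_toFinset _).1 hx)) y (hFS ((Set.Finite.mem_toFinset _).1 hy)) hxy)
      _ (hFfin.toFinset.max'_mem hne) (fun x hx => hFfin.toFinset.le_max' x hx)
    have h3 : (T ∩ Set.Iio (hFfin.toFinset.max' hne)).ncard ≤ T.ncard :=
      Set.ncard_le_ncard Set.inter_subset_left hT
    rw [← hFfin.cast_ncard_eq, ← hT.cast_ncard_eq] at hF
    rw [← Set.ncard_eq_toFinset_card F hFfin] at h2
    have h4 : F.ncard = T.ncard + 1 + 1 := by exact_mod_cast hF
    omega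
  · rw [Set.Infinite.encard_eq hT]
    simp

/-- Rolle: level sets of `f` on `(a, b)` have at most one element more than the zero set of `f'`. -/
theorem level_le {f f' : ℝ → ℝ} {a b : ℝ} (hf : ∀ x ∈ Set.Ioo a b, HasDerivAt f (f' x) x) (c : ℝ) :
    {x | x ∈ Set.Ioo a b ∧ f x = c}.encard ≤ {x | x ∈ Set.Ioo a b ∧ f' x = 0}.encard + 1 := by
  apply encard_le_of_interlace
  rintro x ⟨hx, hfx⟩ y ⟨hy, hfy⟩ hxy
  have hsub : Set.Icc x y ⊆ Set.Ioo a b := fun z hz => ⟨lt_of_lt_of_le hx.1 hz.1,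
    lt_of_le_of_lt hz.2 hy.2⟩
  obtain ⟨z, hz, hz'⟩ := exists_hasDerivAt_eq_zero (f := f) (f' := f') hxy
    (fun z hz => (hf z (hsub hz)).continuousAt.continuousWithinAt) (hfx.trans hfy.symm)
    (fun z hz => hf z (hsub (Set.Ioo_subset_Icc_self hz)))
  exact ⟨z, ⟨hsub (Set.Ioo_subset_Icc_self hz), hz'⟩, hz.1, hz.2⟩

/-- Level sets for `±μ` together. -/
theorem level2_le {f f' : ℝ → ℝ} {a b : ℝ} (hf : ∀ x ∈ Set.Ioo a b, HasDerivAt f (f' x) x)
    {μ : ℝ} (hμ : 0 < μ) :
    {x | x ∈ Set.Ioo a b ∧ (f x = μ ∨ f x = -μ)}.encard ≤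
      {x | x ∈ Set.Ioo a b ∧ f x = 0}.encard + {x | x ∈ Set.Ioo a b ∧ f' x = 0}.encard + 1 := by
  have h1 : {x | x ∈ Set.Ioo a b ∧ (f x = μ ∨ f x = -μ)}.encard ≤
      ({x | x ∈ Set.Ioo a b ∧ f x = 0} ∪ {x | x ∈ Set.Ioo a b ∧ f' x = 0}).encard + 1 := by
    apply encard_le_of_interlace
    rintro x ⟨hx, hfx⟩ y ⟨hy, hfy⟩ hxy
    have hsub : Set.Icc x y ⊆ Set.Ioo a b := fun z hz => ⟨lt_of_lt_of_le hx.1 hz.1,
      lt_of_le_of_lt hz.2 hy.2⟩
    have hcont : ContinuousOn f (Set.Icc x y) :=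
      fun z hz => (hf z (hsub hz)).continuousAt.continuousWithinAt
    have hrolle : f x = f y → ∃ z ∈ ({x | x ∈ Set.Ioo a b ∧ f x = 0} ∪
        {x | x ∈ Set.Ioo a b ∧ f' x = 0} : Set ℝ), x < z ∧ z < y := by
      intro heq
      obtain ⟨z, hz, hz'⟩ := exists_hasDerivAt_eq_zero (f := f) (f' := f') hxy hcont heq
        (fun z hz => hf z (hsub (Set.Ioo_subset_Icc_self hz)))
      exact ⟨z, Or.inr ⟨hsub (Set.Ioo_subset_Icc_self hz), hz'⟩, hz.1, hz.2⟩
    rcases hfx with hfx | hfx <;> rcases hfy with hfy | hfy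
    · exact hrolle (hfx.trans hfy.symm)
    · have : (0 : ℝ) ∈ f '' Set.Ioo x y := by
        apply intermediate_value_Ioo' hxy.le hcont
        rw [hfx, hfy]; constructor <;> linarith
      obtain ⟨z, hz, hz'⟩ := this
      exact ⟨z, Or.inl ⟨hsub (Set.Ioo_subset_Icc_self hz), hz'⟩, hz.1, hz.2⟩
    · have : (0 : ℝ) ∈ f '' Set.Ioo x y := by
        apply intermediate_value_Ioo hxy.le hcont
        rw [hfx, hfy]; constructor <;> linarith
      obtain ⟨z, hz, hz'⟩ := this
      exact ⟨z, Or.inl ⟨hsub (Set.Ioo_subset_Icc_self hz), hz'⟩, hz.1, hz.2⟩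
    · exact hrolle (hfx.trans hfy.symm)
  refine h1.trans ?_
  gcongr
  exact Set.encard_union_le _ _

end Run7.h36.CE
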