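import Pool.Agent.Run7.h36.CE.Count

/-!
The functions on the arc `(0, π)` of the eccentric anomaly: an ellipse with eccentricity `e`
(`b ^ 2 = 1 - e ^ 2`) and the third coordinates `α`, `β` of its axes with respect to the plane of the
circle.
-/

set_option autoImplicit false

namespace Run7.h36.CE

open Real

/-- distance from the focus -/
noncomputable def rho (e t : ℝ) : ℝ := 1 - e * cos t

/-- height above the plane of the circle -/
noncomputable def St (e b α β t : ℝ) : ℝ := α * (cos t - e) + β * b * sin t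

noncomputable def Sp (b α β t : ℝ) : ℝ := -(α * sin t) + β * b * cos t

/-- square of the length of the projection -/
noncomputable def Z (e b α β t : ℝ) : ℝ := rho e t ^ 2 - St e b α β t ^ 2

noncomputable def w (e b α β t : ℝ) : ℝ := e - St e b α β t * Sp b α β t / (sin t * rho e t)

noncomputable def Om (e b α β t : ℝ) : ℝ :=
  b * ((β ^ 2 - α ^ 2) * b + α * β * ((3 * cos t - 2 * e - (2 - e ^ 2) * cos t ^ 3) / sin t ^ 3))

noncomputable def jj (e b α β t : ℝ) : ℝ :=
  Z e b α β t * Om e b α β t - rho e t ^ 3 * w e b α β t ^ 2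

noncomputable def HH (e b α β t : ℝ) : ℝ := jj e b α β t / rho e t ^ 3

noncomputable def GG (e b α β t : ℝ) : ℝ :=
  b * α * β * (rho e t ^ 3 / sin t ^ 5) + e * Om e b α β t

noncomputable def phi (e b α β t : ℝ) : ℝ := w e b α β t / √(Z e b α β t)

variable {e b α β t : ℝ}

theorem rho_pos (he0 : 0 < e) (he1 : e < 1) : 0 < rho e t := by
  unfold rho
  nlinarith [cos_le_one t, neg_one_le_cos t]

theorem hd_rho : HasDerivAt (rho e) (e * sin t) t := by
  have h := ((hasDerivAt_cos t).const_mul e).const_sub 1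
  have h2 : HasDerivAt (rho e) (-(e * -sin t)) t := h
  exact h2.congr_deriv (by ring)

theorem hd_St : HasDerivAt (St e b α β) (Sp b α β t) t := by
  have h := (((hasDerivAt_cos t).sub_const e).const_mul α).add
    ((hasDerivAt_sin t).const_mul (β * b))
  have h2 : HasDerivAt (St e b α β) (α * (-sin t) + β * b * cos t) t := h
  exact h2.congr_deriv (by unfold Sp; ring)

theorem hd_Sp : HasDerivAt (Sp b α β) (-(α * cos t) - β * b * sin t) t := by
  have h := (((hasDerivAt_sin t).const_mul α).neg).add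
    ((hasDerivAt_cos t).const_mul (β * b))
  have h2 : HasDerivAt (Sp b α β) (-(α * cos t) + β * b * (-sin t)) t := h
  exact h2.congr_deriv (by ring)

theorem hd_Z (hs : sin t ≠ 0) (hr : rho e t ≠ 0) :
    HasDerivAt (Z e b α β) (2 * sin t * rho e t * w e b α β t) t := by
  have h := ((hd_rho (e := e) (t := t)).pow 2).sub
    ((hd_St (e := e) (b := b) (α := α) (β := β) (t := t)).pow 2)
  have h2 : HasDerivAt (Z e b α β) _ t := h
  refine h2.congr_deriv ?_
  unfold w
  field_simp
  push_cast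
  ring

theorem hd_w (hb : b ^ 2 = 1 - e ^ 2) (hs : sin t ≠ 0) (hr : rho e t ≠ 0) :
    HasDerivAt (w e b α β) (sin t * Om e b α β t / rho e t ^ 2) t := by
  have h1 := (hd_St (e := e) (b := b) (α := α) (β := β) (t := t)).mul
    (hd_Sp (b := b) (α := α) (β := β) (t := t))
  have h2 := (hasDerivAt_sin t).mul (hd_rho (e := e) (t := t))
  have h3 := (h1.div h2 (mul_ne_zero hs hr)).const_sub e
  have h4 : HasDerivAt (w e b α β) _ t := h3
  refine h4.congr_deriv ?_
  have hid : -(Sp b α β t * Sp b α β t + St e b α β t * (-(α * cos t) - β * b * sin t)) * sin t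
        * rho e t
      + (St e b α β t * Sp b α β t) * (cos t * rho e t + e * sin t ^ 2)
      = b * ((β ^ 2 - α ^ 2) * b * sin t ^ 3
        + α * β * (3 * cos t - 2 * e - (2 - e ^ 2) * cos t ^ 3)) := by
    have hcs : sin t ^ 2 = 1 - cos t ^ 2 := by rw [← sin_sq_add_cos_sq t]; ring
    unfold Sp St rho
    linear_combination α ^ 2 * sin t ^ 3 * hb +
      (-(e * b * α * β * cos t ^ 2) - e * b * α * β * sin t ^ 2 - 2 * e * b * α * β
        + 3 * b * α * β * cos t) * hcs
  have hOm : Om e b α β t = b * ((β ^ 2 - α ^ 2) * b * sin t ^ 3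
        + α * β * (3 * cos t - 2 * e - (2 - e ^ 2) * cos t ^ 3)) / sin t ^ 3 := by
    unfold Om
    field_simp
  rw [hOm, ← hid]
  field_simp
  simp only [Pi.mul_apply]
  ring

theorem hd_Om (hs : sin t ≠ 0) :
    HasDerivAt (Om e b α β) (-(3 * b * α * β * rho e t ^ 2 / sin t ^ 4)) t := by
  have h1 : HasDerivAt (fun t => 3 * cos t - 2 * e - (2 - e ^ 2) * cos t ^ 3)
      (3 * (-sin t) - (2 - e ^ 2) * (((3 : ℕ) : ℝ) * cos t ^ (3 - 1) * (-sin t))) t :=
    (((hasDerivAt_cos t).const_mul 3).sub_const (2 * e)).sub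
      (((hasDerivAt_cos t).pow 3).const_mul (2 - e ^ 2))
  have h2 := (((h1.div ((hasDerivAt_sin t).pow 3) (pow_ne_zero 3 hs)).const_mul (α * β)).const_add
    ((β ^ 2 - α ^ 2) * b)).const_mul b
  have h4 : HasDerivAt (Om e b α β) _ t := h2
  refine h4.congr_deriv ?_
  have hcs : sin t ^ 2 = 1 - cos t ^ 2 := by rw [← sin_sq_add_cos_sq t]; ring
  unfold rho
  simp only [Pi.pow_apply]
  field_simp
  push_cast
  linear_combination b * α * β * sin t ^ 2 * (6 * cos t ^ 2 - 3 - 3 * e ^ 2 * cos t ^ 2) * hcs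

theorem hd_jj (hb : b ^ 2 = 1 - e ^ 2) (hs : sin t ≠ 0) (hr : rho e t ≠ 0) :
    HasDerivAt (jj e b α β) (-(3 * b * α * β * rho e t ^ 2 * Z e b α β t / sin t ^ 4)
      - 3 * e * sin t * rho e t ^ 2 * w e b α β t ^ 2) t := by
  have h1 := (hd_Z (b := b) (α := α) (β := β) hs hr).mul (hd_Om (b := b) (α := α) (β := β) (e := e) hs)
  have h2 := ((hd_rho (e := e) (t := t)).pow 3).mul ((hd_w (α := α) (β := β) hb hs hr).pow 2)
  have h4 : HasDerivAt (jj e b α β) _ t := h1.sub h2
  refine h4.congr_deriv ?_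
  simp only [Pi.pow_apply]
  field_simp
  push_cast
  ring

theorem hd_HH (hb : b ^ 2 = 1 - e ^ 2) (hs : sin t ≠ 0) (hr : rho e t ≠ 0) :
    HasDerivAt (HH e b α β) (-(3 * sin t * Z e b α β t * GG e b α β t / rho e t ^ 4)) t := by
  have h1 := (hd_jj (α := α) (β := β) hb hs hr).div ((hd_rho (e := e) (t := t)).pow 3)
    (pow_ne_zero 3 hr)
  have h4 : HasDerivAt (HH e b α β) _ t := h1
  refine h4.congr_deriv ?_
  unfold GG jj
  simp only [Pi.pow_apply]
  field_simp
  push_cast
  ring

theorem hd_GG (hs : sin t ≠ 0) :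
    HasDerivAt (GG e b α β) (-(5 * b * α * β * cos t * rho e t ^ 3 / sin t ^ 6)) t := by
  have h1 := ((((hd_rho (e := e) (t := t)).pow 3).div ((hasDerivAt_sin t).pow 5)
    (pow_ne_zero 5 hs)).const_mul (b * α * β)).add
    ((hd_Om (b := b) (α := α) (β := β) (e := e) hs).const_mul e)
  have h4 : HasDerivAt (GG e b α β) _ t := h1
  refine h4.congr_deriv ?_
  simp only [Pi.pow_apply]
  field_simp
  push_cast
  ring

theorem hd_phi (hb : b ^ 2 = 1 - e ^ 2) (hs : sin t ≠ 0) (hr : rho e t ≠ 0)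
    (hZ : 0 < Z e b α β t) :
    HasDerivAt (phi e b α β) (sin t * jj e b α β t / (rho e t ^ 2 * Z e b α β t * √(Z e b α β t)))
      t := by
  have h1 := (hd_w (α := α) (β := β) hb hs hr).div ((hd_Z (b := b) (α := α) (β := β) hs hr).sqrt
    hZ.ne') (Real.sqrt_pos.2 hZ).ne'
  have h4 : HasDerivAt (phi e b α β) _ t := h1
  refine h4.congr_deriv ?_
  have h5 := Real.sq_sqrt hZ.le
  have h6 := (Real.sqrt_pos.2 hZ).ne'
  unfold jj
  set y := √(Z e b α β t) with hy
  rw [← h5]
  field_simp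
  try ring

end Run7.h36.CE
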